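import Pool.Agent.CYE.Old

/-! # Squad CYE (MP_734b60_nt, Theorem K): definitions.
Architect: helper25.  Paper: /team-store/PAPER_CYE25.md

`n = p m` odd and squarefree, `p` is larger than the prime factors of `m`, `Φ_n' = g h`.
`q i` (`i : ι`) are the prime factors of `m`; a class `b` modulo `m` is a function
`b : ∀ i, ZMod (q i)`.  `L` is a field of characteristic `p`, `α i` a primitive `q i`-th root of
unity in `L`; `ev α b = ∏ α i ^ b i` stands for `a ^ b`, `a` a primitive `m`-th root of unity. -/

set_option autoImplicit false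

open Polynomial IsLocalRing

namespace Pool.Agent.CYE

open Pool.Agent.CYD

/-- A hypothetical factorisation of the derivative of the cyclotomic polynomial of order `p m`,
`p` larger than all prime factors of `m`. -/
structure Fm (p m : ℕ) (g h : ℤ[X]) : Prop where
  hp : p.Prime
  hm : 3 ≤ m
  hlt : ∀ l : ℕ, l.Prime → l ∣ m → l < p
  F : Fg (p * m) g h

theorem Fm.swap {p m : ℕ} {g h : ℤ[X]} (F : Fm p m g h) : Fm p m h g where
  hp := F.hp
  hm := F.hm
  hlt := F.hlt
  F := F.F.swap

theorem Fm.odd {p m : ℕ} {g h : ℤ[X]} (F : Fm p m g h) : Odd m := (Nat.odd_mul.mp F.F.ho).2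

theorem Fm.sqf {p m : ℕ} {g h : ℤ[X]} (F : Fm p m g h) : Squarefree m :=
  F.F.hs.squarefree_of_dvd (Dvd.intro_left p rfl)

theorem Fm.ndvd {p m : ℕ} {g h : ℤ[X]} (F : Fm p m g h) : ¬ p ∣ m := fun hd => by
  have := F.hlt p F.hp hd
  omega

/-- `X d/dX`. -/
noncomputable def dX {L : Type} [Field L] (f : L[X]) : L[X] := X * derivative f

/-! ### Types of the roots of unity -/

/-- `Δ = Φ_m Φ_m' Φ_m'*`. -/
noncomputable def Dl (L : Type) [Field L] (m : ℕ) : L[X] :=
  cyclotomic m L * derivative (cyclotomic m L) * (derivative (cyclotomic m L)).reverse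

/-- `Δ (X f') / f`, to be used if all prime factors of `f` divide `Δ`. -/
noncomputable def ld {L : Type} [Field L] (Δ f : L[X]) : L[X] := Δ * dX f / f

/-- The type of the root of unity `x` of order `m`: `x` is a root of `g` of larger multiplicity
than of `h`. -/
noncomputable def ty {L : Type} [Field L] (g h : ℤ[X]) (x : L) : Bool :=
  decide (rootMultiplicity x (red L h) < rootMultiplicity x (red L g))

/-- Numerators of the logarithmic derivatives of `u` (the denominator is `Δ`), for the four types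
`(ty x, ty x⁻¹)`. -/
noncomputable def Am (L : Type) [Field L] (m : ℕ) (g h : ℤ[X]) : Bool → Bool → L[X]
  | false, false => ld (Dl L m) (red L g.reverse) - ld (Dl L m) (red L g)
  | true, false => Dl L m + ld (Dl L m) (red L g.reverse) + ld (Dl L m) (red L h) +
      ld (Dl L m) (cyclotomic m L)
  | false, true => -(ld (Dl L m) (red L h.reverse) + ld (Dl L m) (red L g) +
      ld (Dl L m) (cyclotomic m L))
  | true, true => Dl L m + ld (Dl L m) (red L h) - ld (Dl L m) (red L h.reverse)

/-- The numerator and the denominator at the root of unity `x`, the variable `X` stands for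
`y / x`. -/
noncomputable def Ax {L : Type} [Field L] (m : ℕ) (g h : ℤ[X]) (x : L) : L[X] :=
  (Am L m g h (ty g h x) (ty g h x⁻¹)).comp (C x * X)

noncomputable def Bx {L : Type} [Field L] (m : ℕ) (x : L) : L[X] := (Dl L m).comp (C x * X)

/-- `j_x`: the multiplicity of `x` as a root of `(X Φ_m')'`. -/
noncomputable def jm {L : Type} [Field L] (m : ℕ) (x : L) : ℕ :=
  rootMultiplicity x (derivative (X * derivative (cyclotomic m L)))

/-! ### Points and operators -/

variable {ι : Type} [Fintype ι] [DecidableEq ι]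

/-- Classes modulo `m = ∏ q i`. -/
abbrev Pt (q : ι → ℕ) : Type := ∀ i, ZMod (q i)

/-- `a ^ b`. -/
noncomputable def ev {L : Type} [Field L] {q : ι → ℕ} (α : ι → L) (b : Pt q) : L :=
  ∏ i, α i ^ (b i).val

/-- Multiplication by `q i` on the coordinates different from `i`. -/
def fr {q : ι → ℕ} (i : ι) (b : Pt q) : Pt q := fun j => if j = i then b j else (q i : ZMod (q j)) * b j

/-- Shift of the coordinate `i`. -/
def sh {q : ι → ℕ} (i : ι) (s b : Pt q) : Pt q := fun j => if j = i then b j + s j else b j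

/-- The iterated differences of the functions `A b / B b`.  The operator `(i, true)` (Frobenius
operator, for small `q i`) is `f_(b,s) ↦ q f_(fr b, fr s)(X ^ q) - f_(b,s)`, `q = q i`; the operator
`(i, false)` (shift, for large `q i`) is `f_(b,s) ↦ f_(sh b, s) - f_(b,s)`. -/
noncomputable def NP {L : Type} [Field L] {q : ι → ℕ} (A B : Pt q → L[X]) :
    List (ι × Bool) → Pt q → Pt q → L[X] × L[X]
  | [], b, _ => (A b, B b)
  | (i, true) :: t, b, s =>
    (C (q i : L) * expand L (q i) (NP A B t (fr i b) (fr i s)).1 * (NP A B t b s).2 -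
        (NP A B t b s).1 * expand L (q i) (NP A B t (fr i b) (fr i s)).2,
      expand L (q i) (NP A B t (fr i b) (fr i s)).2 * (NP A B t b s).2)
  | (i, false) :: t, b, s =>
    ((NP A B t (sh i s b) s).1 * (NP A B t b s).2 - (NP A B t b s).1 * (NP A B t (sh i s b) s).2,
      (NP A B t (sh i s b) s).2 * (NP A B t b s).2)

/-- The property `P` holds at all vertices of the cube of `(b, s)`. -/
def Vx {q : ι → ℕ} (P : Pt q → Prop) : List (ι × Bool) → Pt q → Pt q → Prop
  | [], b, _ => P b
  | (i, true) :: t, b, s => Vx P t (fr i b) (fr i s) ∧ Vx P t b s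
  | (i, false) :: t, b, s => Vx P t (sh i s b) s ∧ Vx P t b s

/-- Codes of the types of the vertices. -/
def Code : ℕ → Type
  | 0 => Bool × Bool
  | n + 1 => Code n × Code n

instance instFintypeCode : ∀ n, Fintype (Code n)
  | 0 => inferInstanceAs (Fintype (Bool × Bool))
  | n + 1 => letI := instFintypeCode n; inferInstanceAs (Fintype (Code n × Code n))

instance instDecidableEqCode : ∀ n, DecidableEq (Code n)
  | 0 => inferInstanceAs (DecidableEq (Bool × Bool))
  | n + 1 => letI := instDecidableEqCode n; inferInstanceAs (DecidableEq (Code n × Code n))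

/-- The code of the types `τ` of the vertices of the cube of `(b, s)`. -/
def code {q : ι → ℕ} (τ : Pt q → Bool × Bool) : (T : List (ι × Bool)) → Pt q → Pt q → Code T.length
  | [], b, _ => τ b
  | (i, true) :: t, b, s => (code τ t (fr i b) (fr i s), code τ t b s)
  | (i, false) :: t, b, s => (code τ t (sh i s b) s, code τ t b s)

/-! ### The Schwarzian -/

noncomputable def w1 {L : Type} [Field L] (N P : L[X]) : L[X] := dX N * P - N * dX P

noncomputable def w2 {L : Type} [Field L] (N P : L[X]) : L[X] :=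
  dX (w1 N P) * P - 2 * w1 N P * dX P

noncomputable def w3 {L : Type} [Field L] (N P : L[X]) : L[X] :=
  dX (w2 N P) * P - 3 * w2 N P * dX P

/-- `P ^ 6 (2 F' F''' - 3 F'' ^ 2)`, `F = N / P`, `' = X d/dX`. -/
noncomputable def SS {L : Type} [Field L] (N P : L[X]) : L[X] :=
  2 * w1 N P * w3 N P - 3 * w2 N P ^ 2

/-! ### The whole situation -/

/-- The situation modulo `p`: `m = ∏ q i`, `a` a primitive `m`-th root of unity in a field `L` of
characteristic `p`. -/
structure Sit (q : ι → ℕ) (p m : ℕ) (g h : ℤ[X]) (L : Type) [Field L] (a : L) (α : ι → L) :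
    Prop where
  F : Fm p m g h
  hq : ∀ i, (q i).Prime
  inj : Function.Injective q
  prod : ∏ i, q i = m
  chr : CharP L p
  prim : IsPrimitiveRoot a m
  pri : ∀ i, IsPrimitiveRoot (α i) (q i)
  evk : ∀ k : ℕ, a ^ k = ev α (fun i => ((k : ℕ) : ZMod (q i)))

/-- The types of `b` and `-b`. -/
noncomputable def tt {q : ι → ℕ} (g h : ℤ[X]) {L : Type} [Field L] (α : ι → L) (b : Pt q) :
    Bool × Bool := (ty g h (ev α b), ty g h (ev α (-b)))

/-- The iterated differences in our situation. -/
noncomputable def FN {q : ι → ℕ} (m : ℕ) (g h : ℤ[X]) {L : Type} [Field L] (α : ι → L)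
    (T : List (ι × Bool)) (b s : Pt q) : L[X] × L[X] :=
  NP (fun b => Ax m g h (ev α b)) (fun b => Bx m (ev α b)) T b s

/-- The list of operators: Frobenius operators for the elements of `sm`, shifts for those of
`lg`. -/
def ops (sm lg : List ι) : List (ι × Bool) := sm.map (fun i => (i, true)) ++
  lg.map (fun i => (i, false))

/-- `(b, s)` is admissible: `b` is invertible, `s i = 0` for the small `i`, `s i ≠ 0` and
`b i + s i ≠ 0` for the large `i`. -/
def Om {q : ι → ℕ} (sm lg : List ι) (w : Pt q × Pt q) : Prop :=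
  (∀ i, w.1 i ≠ 0) ∧ (∀ i ∈ sm, w.2 i = 0) ∧ ∀ i ∈ lg, w.2 i ≠ 0 ∧ w.1 i + w.2 i ≠ 0

/-- The logarithmic derivative of the iterated difference vanishes. -/
def Zr {q : ι → ℕ} (m : ℕ) (g h : ℤ[X]) {L : Type} [Field L] (α : ι → L)
    (T : List (ι × Bool)) (w : Pt q × Pt q) : Prop :=
  w1 (FN m g h α T w.1 w.2).1 (FN m g h α T w.1 w.2).2 = 0

/-- Bound for the degrees of the iterated differences. -/
def MT (q : ι → ℕ) (m : ℕ) (T : List (ι × Bool)) : ℕ :=
  3 * m.totient * (T.map fun x => if x.2 then 1 + q x.1 else 2).prod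

/-- `Δ V`, `V = X d/dX log (X Φ_m' / Φ_m)`. -/
noncomputable def Vm (L : Type) [Field L] (m : ℕ) : L[X] :=
  Dl L m + ld (Dl L m) (derivative (cyclotomic m L)) - ld (Dl L m) (cyclotomic m L)

/-- `Δ V'`, `V' = X d/dX log (Φ_m / Φ_m'*)`. -/
noncomputable def Wm (L : Type) [Field L] (m : ℕ) : L[X] :=
  ld (Dl L m) (cyclotomic m L) - ld (Dl L m) (derivative (cyclotomic m L)).reverse

/-- The coefficient of `X ^ k` of the power series `A / Δ`. -/
noncomputable def co (L : Type) [Field L] (m : ℕ) (A : L[X]) (k : ℕ) : L :=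
  PowerSeries.coeff k ((A : PowerSeries L) * ((Dl L m : L[X]) : PowerSeries L)⁻¹)

/-- Shift of the coordinates in `S`. -/
def shS {q : ι → ℕ} (S : Finset ι) (s b : Pt q) : Pt q := fun j => if j ∈ S then b j + s j else b j

/-- The invertible classes. -/
def Un (q : ι → ℕ) [∀ i, Fact (q i).Prime] : Finset (Pt q) :=
  Finset.univ.filter fun b => ∀ i, b i ≠ 0

/-- The shift vectors. -/
def Sv (q : ι → ℕ) [∀ i, Fact (q i).Prime] (lg : List ι) : Finset (Pt q) :=
  Finset.univ.filter fun s => ∀ i, (i ∈ lg → s i ≠ 0) ∧ (i ∉ lg → s i = 0)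

/-- All vertices of the cube of `(b, s)` are good for `J`. -/
def Gd {q : ι → ℕ} (m : ℕ) {L : Type} [Field L] (α : ι → L) (J : ℕ) (T : List (ι × Bool))
    (b s : Pt q) : Prop :=
  Vx (fun v => jm m (ev α v) + jm m (ev α v)⁻¹ + 1 ≤ J) T b s

end Pool.Agent.CYE
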