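import Pool.Agent.Helper85_CYD.Main2
import Pool.Agent.Helper18_CYD.Disc
import Pool.Agent.Helper27_CYD.Pdv

/-! # Squad CYE (MP_734b60_nt, Theorem K): the proven statements of the squad CYD which we use.
Architect: helper25.  Paper: /team-store/PAPER_CYE25.md -/

set_option autoImplicit false

open Polynomial IsLocalRing

namespace Pool.Agent.CYE

open Pool.Agent.CYD

theorem disc : DiscStmt := CYD.H18.disc
theorem coe : CoeStmt := CYD.H18.coe
theorem dvd : DvdStmt := CYD.dvd
theorem abs : AbsStmt := CYD.H76.abs_mod dvd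
theorem awy : AwyStmt := CYD.awy dvd
theorem rev : RevStmt := CYD.rev
theorem bas : BasStmt := CYD.bas disc coe
theorem kro : KroStmt := CYD.kro
theorem unr : UnrStmt := CYD.unr
theorem ram : RamStmt := CYD.ram
theorem loc : LocStmt := CYD.loc unr ram
theorem sum : SumStmt := CYD.sum
theorem fro : FroStmt := CYD.H48.fro
theorem trf : TrfStmt := CYD.H48.trf
theorem rmu : RmuStmt := CYD.rmu
theorem spl : SplStmt := CYD.spl
theorem exa : ExaStmt := CYD.exa
theorem red' : RedStmt := CYD.redMod coe
theorem dbl : DblStmt := CYD.dbl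
theorem prm : PrmStmt := CYD.H7.prm
theorem unt : UntStmt := CYD.unt loc sum fro rmu spl abs
theorem opr : OprStmt := CYD.opr unt awy abs kro
theorem rpc : RpcStmt := CYD.rpc
theorem wpd : WpdStmt := CYD.wpd
theorem rad : RadStmt := CYD.rad
theorem rpx : RpxStmt := CYD.rpx
theorem idn : IdnStmt := CYD.idn rev
theorem lgm : LgmStmt := CYD.lgm

end Pool.Agent.CYE
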