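import Pool.Agent.CYE.Defs

/-! # Squad CYE (MP_734b60_nt, Theorem K): statements of the parts A, B (arithmetic).
Architect: helper25.  Paper: /team-store/PAPER_CYE25.md.  The proven statements of the squad CYD
(`CYE.disc, coe, dvd, abs, awy, rev, bas, unr, ram, loc, sum, fro, rmu, spl, opr, rpc, wpd, rad,
rpx, idn, lgm`) are in `Pool.Agent.CYE.Old` and may be used freely. -/

set_option autoImplicit false

open Polynomial IsLocalRing

namespace Pool.Agent.CYE

open Pool.Agent.CYD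

/-- **DEG** (a factor has large degree).  *Proof* (helper21).  `z` a primitive `n`-th root of
unity, `G = g(z)`, `G' = g*(z)`.  `g*(z²)² g(z)⁴ - g*(z)⁴ g(z²)²` is divisible by `4` (since
`f(X)² ≡ f(X²)` modulo `2`), and its absolute value is `≤ 2 |g(z)|⁴ |g(z²)|²` in all embeddings;
it is not `0` (otherwise `u` would be a root of unity).  So `2 ^ φ(n) ≤ |Norm g(z)| ^ 6`, and
`|Norm g(z)| ≤ n ^ deg g`. -/
def DegStmt : Prop :=
  ∀ (n : ℕ) (g h : ℤ[X]), Fg n g h → 2 ^ n.totient ≤ n ^ (6 * g.natDegree)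

/-- **BAF** (basic facts).  *Proof.*  `m ≥ 3` is odd, so it has a prime factor `l ≥ 3`, `l < p`,
`p ≥ 5`.  `φ(m) = ∏ (l - 1)` over the primes `l ∣ m` (`Nat.totient_eq_prod_factorization` or
`Nat.totient_mul` / induction), `0 < l - 1 < p`. -/
def BafStmt : Prop :=
  ∀ (p m : ℕ) (g h : ℤ[X]), Fm p m g h →
    5 ≤ p ∧ ¬ p ∣ m.totient ∧ ¬ p ∣ (p * m).totient ∧ 2 ≤ m.totient ∧
      (p * m).totient = (p - 1) * m.totient

/-- **FCM** (the factorisation modulo `p`; uses BAF).  *Proof.*  Same as `CYD.FctStmt`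
(`Helper66_CYD/Fct.lean`), where `p` was assumed to be large; only `¬ p ∣ m`, `¬ p ∣ φ(m)`,
`¬ p ∣ φ(p m)` are used. -/
def FcmStmt : Prop :=
  ∀ (p m : ℕ) (g h : ℤ[X]), Fm p m g h → ∀ (L : Type) [Field L] [CharP L p],
    red L g * red L h =
      -(cyclotomic m L ^ (p - 2) * derivative (cyclotomic m L)) ∧
    red L g.reverse * red L h.reverse =
      -(cyclotomic m L ^ (p - 2) * (derivative (cyclotomic m L)).reverse) ∧
    X * derivative (cyclotomic m L) + (derivative (cyclotomic m L)).reverse =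
      C ((m.totient : ℕ) : L) * cyclotomic m L ∧
    (derivative (cyclotomic m L)).natDegree + 1 = m.totient ∧
    (derivative (cyclotomic m L)).reverse.natDegree + 1 = m.totient ∧
    (red L g).natDegree = g.natDegree ∧ (red L g).reverse = red L g.reverse ∧
    (red L g).coeff 0 ≠ 0 ∧ (red L g.reverse).coeff 0 ≠ 0 ∧
    (red L h).coeff 0 ≠ 0 ∧ (red L h.reverse).coeff 0 ≠ 0

/-- **MIN** (the smaller multiplicity; uses BAF).  *Proof.*  As CLM (`Helper50_CYD/Clm.lean`,
paper (5.2)), with the assumption all prime factors of `m` are `< p` instead of `m < p`.  Let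
`j` be the minimum; `2 j ≤ p - 2`.  CLM shows that `(X - a) ^ (j + 1)` divides
`e0 X Φ_m' - C0`, `e0, C0 ≠ 0`; take the derivative: `(X - a) ^ j` divides `(X Φ_m')'`, which is
not zero: its coefficient of `X ^ (φ(m) - 1)` is `φ(m) ^ 2`. -/
def MinStmt : Prop :=
  ∀ (p m : ℕ) (g h : ℤ[X]), Fm p m g h → ∀ (L : Type) [Field L] [CharP L p] (a : L),
    IsPrimitiveRoot a m →
    min (rootMultiplicity a (red L g)) (rootMultiplicity a (red L h)) ≤ jm m a

/-- **EVL** (basic facts about `ev`; no hypotheses). -/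
def EvlStmt : Prop :=
  ∀ (ι : Type) [Fintype ι] [DecidableEq ι] (q : ι → ℕ) [∀ i, Fact (q i).Prime] (L : Type)
    [Field L] (α : ι → L), (∀ i, IsPrimitiveRoot (α i) (q i)) → Function.Injective q →
    (∀ b b' : Pt q, ev α (b + b') = ev α b * ev α b') ∧
    (∀ b : Pt q, ev α b ≠ 0 ∧ ev α b * ev α (-b) = 1 ∧ ev α (-b) = (ev α b)⁻¹) ∧
    (∀ (i : ι) (b : Pt q), ev α (fr i b) = ev α b ^ q i * α i ^ (b i).val) ∧
    (∀ (i : ι) (s b : Pt q), ev α (sh i s b) = ev α b * α i ^ (s i).val) ∧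
    (∀ b b' : Pt q, ev α b = ev α b' → b = b') ∧
    (∀ b : Pt q, (∀ i, b i ≠ 0) → IsPrimitiveRoot (ev α b) (∏ i, q i))

/-- **SIE** (the situation exists).  *Proof.*  For `l ∣ m` prime let `E l : ℕ` be `≡ 1` modulo `l`
and `≡ 0` modulo `m / l` (Chinese remainder), `α l = a ^ E l`, a primitive `l`-th root of unity.
`∑ E l ≡ 1` modulo `m`, so `a ^ k = ∏ α l ^ k`, and `α l ^ k = α l ^ (k : ZMod l).val`. -/
def SieStmt : Prop :=
  ∀ (p m : ℕ) (g h : ℤ[X]), Fm p m g h → ∀ (L : Type) [Field L] [CharP L p] (a : L),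
    IsPrimitiveRoot a m → ∃ α : {l // l ∈ m.primeFactors} → L,
      Sit (fun i : {l // l ∈ m.primeFactors} => i.1) p m g h L a α

/-- **CJM** (most `b` are good; uses BAF, EVL).  *Proof.*  The polynomial `(X Φ_m')'` is not zero
(coefficient `φ(m) ^ 2` of `X ^ (φ(m) - 1)`) and has degree `≤ φ(m)`; the `ev α b` are distinct
(EVL), so `∑ jm (ev b) ≤ φ(m)` (`Polynomial.card_roots'`, `count_roots`), and
`∑ (jm (ev b) + jm (ev b)⁻¹) ≤ 2 φ(m)` (`b ↦ -b`).  Every `b` on the left contributes at least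
`J`. -/
def CjmStmt : Prop :=
  ∀ (ι : Type) [Fintype ι] [DecidableEq ι] (q : ι → ℕ) [∀ i, Fact (q i).Prime] (p m : ℕ)
    (g h : ℤ[X]) (L : Type) [Field L] (a : L) (α : ι → L), Sit q p m g h L a α →
    (∑ b ∈ Un q, jm m (ev α b) ≤ m.totient) ∧ ∀ J : ℕ,
    J * ((Un q).filter fun b => ¬ jm m (ev α b) + jm m (ev α b)⁻¹ + 1 ≤ J).card ≤ 2 * m.totient

/-- **AFF** (the numerators; uses FCM).  *Proof.*  `red g`, `red g*`, `red h`, `red h*`, `Φ_m`,
`Φ_m'`, `Φ_m'*` divide a power of `Δ = Dl` (FCM), so by `CYD.RadStmt` (`CYE.rad`) for each `f` among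
them there is `N` with `deg N ≤ deg Δ ≤ 3 φ(m)` and `N f = Δ (X f')`; hence `ld Δ f = N` and the
first assertions.  From `red g * red h = -(Φ_m ^ (p-2) Φ_m')`:
`ld g + ld h = (p - 2) ld Φ_m + ld Φ_m'` and `p = 0` in `L` (`ld` is additive on products of
divisors of powers of `Δ`), the same with `*`.  This gives the relations. -/
def AffStmt : Prop :=
  ∀ (p m : ℕ) (g h : ℤ[X]), Fm p m g h → ∀ (L : Type) [Field L] [CharP L p],
    Dl L m ≠ 0 ∧ (Dl L m).coeff 0 ≠ 0 ∧ (Dl L m).natDegree ≤ 3 * m.totient ∧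
    (∀ f : L[X], (f = red L g ∨ f = red L h ∨ f = red L g.reverse ∨ f = red L h.reverse ∨
      f = cyclotomic m L ∨ f = derivative (cyclotomic m L) ∨
      f = (derivative (cyclotomic m L)).reverse) →
      ld (Dl L m) f * f = Dl L m * dX f ∧ (ld (Dl L m) f).natDegree ≤ 3 * m.totient) ∧
    (∀ e e' : Bool, (Am L m g h e e').natDegree ≤ 3 * m.totient) ∧
    Am L m g h true false = Am L m g h false false + Vm L m ∧
    Am L m g h false true = Am L m g h false false + Wm L m ∧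
    Am L m g h true true = Am L m g h false false + Vm L m + Wm L m

/-- **RBB** (representations of `u(k)`; uses BAF, FCM, MIN, AFF).  *Proof.*  As RPB
(`Helper50_CYD/Rpb.lean`, paper (5.3)).  `x = a ^ k`, `a` the residue of `z`; the multiplicities
of `g`, `h` at `x` are `s`, `s'` with `s + s' = p - 2` (`CYE.sum`), so by MIN the smaller one is
`≤ jm x`; if `ty x = true` the smaller one is `s'`, otherwise `s` (`p - 2` is odd).  The
multiplicity of `g*` at `x` is that of `g` at `x⁻¹` (`CYE.rmu`).  In the four cases use the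
identities `CYE.idn` at `z ^ k`:
type `(false, false)`: `u g(z^k) = g*(z^k)`;
type `(true, false)`: `u p (z^k)^(p-1) Φ_m'(z^(kp)) = (g* h Φ_m)(z^k)`, `e = 1`;
type `(false, true)`: `u (h* g Φ_m)(z^k) = -p (z^k)^p Φ_m'(z^(kp))`, `e = -1`;
type `(true, true)`: `u h*(z^k) = -z^k h(z^k)`,
with the representations `CYE.rpx`: `f(z^k)` is represented by `f(x X^D)`, whose multiplicity at
`X = 1` is that of `f` at `x`; `Φ_m` has multiplicity one at `x`.  The logarithmic derivative of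
`f(x X^D)` is `D (ld f / Δ)(x X^D)`. -/
def RbbStmt : Prop :=
  ∀ (p m : ℕ) (g h : ℤ[X]), Fm p m g h → ∀ (K : Type) [Field K] [CharZero K]
    (A : ValuationSubring K) (z : A), (p : A) ∈ maximalIdeal A → IsPrimitiveRoot z (p * m) →
    ∀ k D : ℕ, k.Coprime (p * m) → k ≡ D [MOD p] →
      Rep p A z (uu g ((z : K) ^ k))
        (C (D : ResidueField A) * expand _ D (Ax m g h (residue A z ^ k)))
        (expand _ D (Bx m (residue A z ^ k)))
        (jm m (residue A z ^ k) + jm m (residue A z ^ k)⁻¹ + 1)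

/-- **WRG** (a represented root of unity has constant logarithmic derivative, local version; no
hypotheses).  *Proof.*  As WRO (`Helper25_CYD/Wro.lean`); there
`(X - 1) ^ (p - 2 - μ) ∣ N - i P` is an intermediate step (case `e = 0`; the cases `e ≠ 0` are
impossible if `μ < p - 1`; if `μ ≥ p - 2` the claim is trivial). -/
def WrgStmt : Prop :=
  ∀ (p m : ℕ), p.Prime → ¬ p ∣ m → 1 ≤ m → ∀ (K : Type) [Field K] [CharZero K]
    (A : ValuationSubring K) (z : A) (w : K) (N P : (ResidueField A)[X]) (μ : ℕ) (s : ℤ) (i : ℕ),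
    (p : A) ∈ maximalIdeal A → IsPrimitiveRoot z (p * m) → Rep p A z w N P μ →
    (s = 1 ∨ s = -1) → w = s * (z : K) ^ i →
    ∃ c : ResidueField A, (X - 1) ^ (p - 2 - μ) ∣ N - C c * P

/-- **RPV** (representations along the vertices; no hypotheses).  *Proof.*  `n = p m`.  By the
Chinese remainder theorem choose for `(i, true)` in `T` a number `κ ≡ q i` modulo `n / q i`,
`κ ≡ 1` modulo `q i`, and for `(i, false)` a number `κ ≡ 1` modulo `n / q i` with
`κ b_i = b_i + s_i` modulo `q i`; let `T'` be the list of the pairs `(κ, q i)` resp. `(κ, 1)`.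
Claim by induction on `T`, for fixed `κ`'s and all `b, s` with `κ b_i = b_i + s_i` for
`(i, false)` in `T` (this condition is inherited by `(fr b, fr s)` and by `(sh_j b, s)`, `j ≠ i`,
since no index occurs twice in `T`): the last statement.  Step: `WW u (x :: t) k =
WW u t (x.1 k) / WW u t k`, `x.1 k` lies in the class `fr i b` (resp. `sh i s b`) and is `≡ x.2 D`
modulo `p`; use `CYE.rpc` and `expand_expand` as in `CYD.RpwStmt` (its proof is in
`Helper*_CYD`). -/
def RpvStmt : Prop :=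
  ∀ (ι : Type) [Fintype ι] [DecidableEq ι] (q : ι → ℕ) [∀ i, Fact (q i).Prime] (p m : ℕ),
    p.Prime → ¬ p ∣ m → Function.Injective q → ∏ i, q i = m →
    ∀ (K : Type) [Field K] [CharZero K] (A : ValuationSubring K) (z : A) (u : ℕ → K)
    (A' B' : Pt q → (ResidueField A)[X]) (μ : ℕ), (p : A) ∈ maximalIdeal A →
    (∀ k : ℕ, k.Coprime (p * m) → u k ≠ 0) →
    ∀ (T : List (ι × Bool)), (T.map Prod.fst).Nodup → ∀ b s : Pt q, (∀ i, b i ≠ 0) →
    (∀ i, (i, false) ∈ T → b i + s i ≠ 0) →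
    Vx (fun v => ∀ k D : ℕ, k.Coprime (p * m) → k ≡ D [MOD p] → (∀ i, ((k : ℕ) : ZMod (q i)) = v i) →
      Rep p A z (u k) (C (D : ResidueField A) * expand _ D (A' v)) (expand _ D (B' v)) μ) T b s →
    ∃ T' : List (ℕ × ℕ), T'.length = T.length ∧
      (∀ x ∈ T', x.1.Coprime (p * m) ∧ x.1 ≡ x.2 [MOD p]) ∧
      (∀ i c, (i, c) ∈ T → ∃ x ∈ T', x.1 ≡ 1 [MOD p * m / q i] ∨ x.1 ≡ q i [MOD p * m / q i]) ∧
      ∀ k D : ℕ, k.Coprime (p * m) → k ≡ D [MOD p] → (∀ i, ((k : ℕ) : ZMod (q i)) = b i) →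
        Rep p A z (WW u T' k) (C (D : ResidueField A) * expand _ D (NP A' B' T b s).1)
          (expand _ D (NP A' B' T b s).2) (2 ^ T.length * μ)

/-- **ARI** (the arithmetic input; uses RBB, WRG, RPV).  *Proof.*  `n = p m`, `L = ResidueField A`,
`a` the residue of `z`.  By RBB the hypothesis of RPV holds for `u k = uu g (z ^ k)`,
`A' v = Ax (ev v)`, `B' v = Bx (ev v)` (if `k` lies in the class `v` then `a ^ k = ev v`), `μ = J`
(`Rep` is monotone in `μ`).  Let `T'` be as in RPV, `σ ≡ 1` modulo `m`, `σ ≡ t` modulo `p`, `k` in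
the class of `b`, `k ≡ 1` modulo `p`.  RPV for `k` (`D = 1`) and `σ k` (`D = t`), and `CYE.rpc`,
give a representation of `WW u ((σ, t) :: T') k` with
`N = C t * expand t N₀ * P₀ - N₀ * expand t P₀`, `P = expand t P₀ * P₀`, `μ = 2 ^ (|T| + 1) J`,
`(N₀, P₀) = FN m g h α T b s`.  By `CYE.opr` (every prime `l ∣ n` is `p` or some `q i`) this is
`± z ^ i`.  Apply WRG. -/
def AriStmt : Prop :=
  ∀ (ι : Type) [Fintype ι] [DecidableEq ι] (q : ι → ℕ) [∀ i, Fact (q i).Prime] (p m : ℕ)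
    (g h : ℤ[X]) (K : Type) [Field K] [NumberField K] [IsCyclotomicExtension {p * m} ℚ K]
    (A : ValuationSubring K) (z : A) (α : ι → ResidueField A), (p : A) ∈ maximalIdeal A →
    IsPrimitiveRoot z (p * m) → Sit q p m g h (ResidueField A) (residue A z) α →
    ∀ (T : List (ι × Bool)), (T.map Prod.fst).Nodup → (∀ i, i ∈ T.map Prod.fst) →
    ∀ b s : Pt q, (∀ i, b i ≠ 0) → (∀ i, (i, false) ∈ T → b i + s i ≠ 0) → ∀ J : ℕ,
    Gd m α J T b s → ∀ t : ℕ, ¬ p ∣ t →
    ∃ c : ResidueField A, (X - 1) ^ (p - 2 - 2 ^ (T.length + 1) * J) ∣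
      C (t : ResidueField A) * expand _ t (FN m g h α T b s).1 * (FN m g h α T b s).2 -
        (FN m g h α T b s).1 * expand _ t (FN m g h α T b s).2 -
        C c * (expand _ t (FN m g h α T b s).2 * (FN m g h α T b s).2)

/-- **SPO** (degrees and simple poles; uses EVL, AFF).  *Proof.*  Induction on `T`.  For a vertex
`v` the root of unity `x = ev v` has order `m` (EVL), `Bx x = Δ(x X)` has a simple zero at `X = 1`
(`Φ_m` is separable, `Φ_m'` and `Φ_m'*` do not vanish at `x`: `Φ_m'*(x) = x ^ d Φ_m'(x⁻¹)`), so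
`(X - 1) ^ 1` divides `(X - 1) Ax`.  Step: `expand` by `D` (`D ≠ 0` in `L`) preserves the
multiplicity at `1`, and multiplicities add up in products.  Degrees: `deg (expand D f) = D deg f`.
Constant coefficients: `coeff 0` is multiplicative and preserved by `expand`. -/
def SpoStmt : Prop :=
  ∀ (ι : Type) [Fintype ι] [DecidableEq ι] (q : ι → ℕ) [∀ i, Fact (q i).Prime] (p m : ℕ)
    (g h : ℤ[X]) (L : Type) [Field L] (a : L) (α : ι → L), Sit q p m g h L a α →
    ∀ (T : List (ι × Bool)), (T.map Prod.fst).Nodup → ∀ b s : Pt q, (∀ i, b i ≠ 0) →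
    (∀ i, (i, false) ∈ T → b i + s i ≠ 0) →
    (FN m g h α T b s).1.natDegree ≤ MT q m T ∧ (FN m g h α T b s).2.natDegree ≤ MT q m T ∧
    (FN m g h α T b s).2.coeff 0 ≠ 0 ∧ (FN m g h α T b s).2 ≠ 0 ∧
    (X - 1) ^ rootMultiplicity 1 (FN m g h α T b s).2 ∣ (X - 1) * (FN m g h α T b s).1

end Pool.Agent.CYE
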