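import Pool.Agent.CYE.Defs

/-! # Squad CYE (MP_734b60_nt, Theorem K): statements of part C (the Schwarzian and the counting of
the classes).  Architect: helper25.  Paper: /team-store/PAPER_CYE25.md -/

set_option autoImplicit false

open Polynomial IsLocalRing

namespace Pool.Agent.CYE

open Pool.Agent.CYD

/-- **SCI** (identities for the Schwarzian; pure algebra, no hypotheses).  `dX = X d/dX` is a
derivation of `L[X]`; `w1 N P = dX N P - N dX P` and so on, `SS N P = 2 w1 w3 - 3 w2 ^ 2`.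
*Proof.*  `w1 (G N) (G P) = G ^ 2 w1 N P`, `w2 (G N) (G P) = G ^ 3 w2 N P`,
`w3 (G N) (G P) = G ^ 4 w3 N P` (`ring` after `dX (f g) = dX f g + f dX g`);
`w1 (N + C c P) P = w1 N P`; `dX (expand t f) = C t (expand t (dX f))`;
`dX (f.comp (C x X)) = (dX f).comp (C x X)`; degrees: `w1`, `w2`, `w3` have degree
`≤ 2M, 3M, 4M`; perturbation: `(X - 1) ^ k ∣ E` implies `(X - 1) ^ (k - 1) ∣ dX E`, so
`w1 (N + E) P - w1 N P`, `w2 ..`, `w3 ..` are divisible by `(X - 1)` to the powers `k - 1`,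
`k - 2`, `k - 3`. -/
def SciStmt : Prop :=
  ∀ (L : Type) [Field L] (N P G E : L[X]) (c x : L) (t k M : ℕ),
    SS (G * N) (G * P) = G ^ 6 * SS N P ∧
    SS (N + C c * P) P = SS N P ∧
    (0 < t → SS (C (t : L) * expand L t N) (expand L t P) = C ((t : L) ^ 6) * expand L t (SS N P)) ∧
    SS (N.comp (C x * X)) (P.comp (C x * X)) = (SS N P).comp (C x * X) ∧
    w1 (N.comp (C x * X)) (P.comp (C x * X)) = (w1 N P).comp (C x * X) ∧
    (N.natDegree ≤ M → P.natDegree ≤ M → (SS N P).natDegree ≤ 6 * M ∧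
      (w1 N P).natDegree ≤ 2 * M) ∧
    ((X - 1) ^ k ∣ E → (X - 1) ^ (k - 3) ∣ SS (N + E) P - SS N P)

/-- **SCV** (the value at `1`; pure algebra, no hypotheses).  *Proof.*  `P = (X - 1) Q`;
`α = N(1)`, `β = (dX P)(1) = Q(1)`.  At `1`: `w1 = -α β`, `w2 = -2 w1 β = 2 α β²`,
`w3 = -3 w2 β = -6 α β³`, `SS = 2 (-α β) (-6 α β³) - 3 (2 α β²)² = 0`. -/
def ScvStmt : Prop :=
  ∀ (L : Type) [Field L] (N P : L[X]), P.eval 1 = 0 → (SS N P).eval 1 = 0

/-- **SCH** (the Schwarzian vanishes to high order; uses SCI, SCV).  *Proof* (paper, C1).  Let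
`ν` be the multiplicity of `P` at `1`.  There are `A`, `B` with `B = (X - 1) B₁`, `B₁(1) ≠ 0` and
`(X - 1) N = (X - 1) ^ ν A`, `(X - 1) P = (X - 1) ^ ν B`.  Then `E = t A(X^t) B - A B(X^t) - c B B(X^t)`
satisfies `(X - 1) (X^t - 1) (old expression) = (X - 1) ^ ν (X^t - 1) ^ ν E`, so
`(X - 1) ^ (P1 + 2 - 2 ν) ∣ E` (`X^t - 1 = (X - 1) τ`, `τ(1) = t ≠ 0`), `P2 = P1 + 2 - 2 ν`.
By SCI, `S = SS A B`: `SS (t A(X^t) B) (B(X^t) B) = B ^ 6 t ^ 6 S(X^t)`,
`SS ((A + c B) B(X^t)) (B B(X^t)) = B(X^t) ^ 6 S`, and the first arguments differ by `E`, so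
`(X - 1) ^ (P2 - 3) ∣ t ^ 6 S(X^t) B ^ 6 - B(X^t) ^ 6 S`.  If `S = 0` we are done.  Otherwise let
`S = (X - 1) ^ i S₁`, `S₁(1) ≠ 0`; `1 ≤ i` by SCV.  The last polynomial is
`(X - 1) ^ (i + 6) (t ^ 6 τ ^ i S₁(X^t) B₁ ^ 6 - τ ^ 6 B₁(X^t) ^ 6 S₁)`, and the second factor has
at `1` the value `(t ^ (i + 6) - t ^ 6) S₁(1) B₁(1) ^ 6`.  So if `i + 6 < P2 - 3` then
`t ^ i = 1` in `L`, `(p - 1) ∣ i`, `p - 1 ≤ i`, but `i < P2 - 9 ≤ p - 9`.  Hence `P2 - 9 ≤ i`.
Finally `(X - 1) ^ 6 SS N P = (X - 1) ^ (6 ν) S` (SCI), so the multiplicity of `SS N P` is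
`≥ 6 ν - 6 + P1 + 2 - 2 ν - 9 ≥ P1 - 13` (natural number subtraction: if `P1 ≤ 13` there is
nothing to prove; otherwise argue in `ℤ`). -/
def SchStmt : Prop :=
  ∀ (L : Type) [Field L] (p : ℕ) [CharP L p] (t : ℕ) (N P : L[X]) (c : L) (P1 : ℕ), p.Prime →
    5 ≤ p → orderOf (t : ZMod p) = p - 1 → P ≠ 0 →
    (X - 1) ^ rootMultiplicity 1 P ∣ (X - 1) * N → P1 ≤ p - 2 →
    (X - 1) ^ P1 ∣ C (t : L) * expand L t N * P - N * expand L t P - C c * (expand L t P * P) →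
    (X - 1) ^ (P1 - 13) ∣ SS N P

/-- **VAN** (vanishing Schwarzian; pure algebra, no hypotheses).  *Proof* (paper, C3).  Suppose
`w1 N P ≠ 0`, `X ^ l` the exact power of `X` in `w1 N P`, `c` the coefficient of `X ^ l`, `π = P(0)`.
The coefficient of `X ^ l` in `dX f` is `l` times that of `f`, and `dX P` has no constant term, so
modulo `X ^ (l + 1)`: `w2 = l c π X ^ l`, `w3 = l ^ 2 c π ^ 2 X ^ l`, and modulo `X ^ (2 l + 1)`:
`SS = (2 l ^ 2 - 3 l ^ 2) c ^ 2 π ^ 2 X ^ (2 l)`.  So `l = 0` in `L`, `p ∣ l`.  But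
`w1 N P = P ^ 2 dX (N / P)` in power series, and the coefficient of `X ^ l` of
`X d/dX` of a power series is `l` times something, `= 0`; all lower coefficients of
`X d/dX (N / P)` vanish because those of `w1` do; so the coefficient of `X ^ l` in `w1` is `0`, a
contradiction. -/
def VanStmt : Prop :=
  ∀ (L : Type) [Field L] (p : ℕ) [CharP L p] (N P : L[X]), p.Prime → P.coeff 0 ≠ 0 →
    SS N P = 0 → w1 N P = 0

/-- **GLB** (the global functions; uses EVL).  *Proof.*  Induction on `T`, for all `b, b', s`.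
`T = []`: `τ b = τ b'` and `(f.comp (C x X)).comp (C x⁻¹ X) = f`.  `(i, false) :: t`: let `y = X`;
`(NP t (sh b) s).comp (C (ev b)⁻¹ X) = G.comp (C (α i ^ (s i).val) X)`, where
`G = (NP t (sh b) s).comp (C (ev (sh b))⁻¹ X)` depends only on the code (induction), because
`ev (sh b) = ev b α i ^ (s i).val`.  `(i, true) :: t`:
`(expand q N).comp (C (ev b)⁻¹ X) = (expand q' ..)`: with `G = N.comp (C (ev (fr b))⁻¹ X)` it equals
`G.comp (C (α i ^ (b i).val) X ^ (q i))`, because `ev (fr b) = ev b ^ q α i ^ (b i).val`, `q = q i`.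
Here `b i = b' i` is used; the assumption `b j = b' j` for `(j, true) ∈ t` is inherited by
`fr i b`, `fr i b'` and `sh i s b`, `sh i s b'`. -/
def GlbStmt : Prop :=
  ∀ (ι : Type) [Fintype ι] [DecidableEq ι] (q : ι → ℕ) [∀ i, Fact (q i).Prime] (L : Type)
    [Field L] (α : ι → L), (∀ i, IsPrimitiveRoot (α i) (q i)) → Function.Injective q →
    ∀ (F : Bool × Bool → L[X]) (G : L[X]) (τ : Pt q → Bool × Bool) (T : List (ι × Bool))
    (b b' s : Pt q), code τ T b s = code τ T b' s → (∀ i, (i, true) ∈ T → b i = b' i) →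
    (NP (fun b => (F (τ b)).comp (C (ev α b) * X)) (fun b => G.comp (C (ev α b) * X)) T b s).1.comp
        (C (ev α b)⁻¹ * X) =
      (NP (fun b => (F (τ b)).comp (C (ev α b) * X)) (fun b => G.comp (C (ev α b) * X)) T b' s).1.comp
        (C (ev α b')⁻¹ * X) ∧
    (NP (fun b => (F (τ b)).comp (C (ev α b) * X)) (fun b => G.comp (C (ev α b) * X)) T b s).2.comp
        (C (ev α b)⁻¹ * X) =
      (NP (fun b => (F (τ b)).comp (C (ev α b) * X)) (fun b => G.comp (C (ev α b) * X)) T b' s).2.comp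
        (C (ev α b')⁻¹ * X)

/-- **CLS** (popular classes; uses EVL, SPO, SCI, GLB).  *Proof.*  Put `b, b'` in the same class if
`code τ T b s = code τ T b' s`, `τ b = tt g h α b`, and `b i = b' i` for `(i, true) ∈ T`.  There are
at most `4 ^ (2 ^ |T|) ∏ q i` classes (`Fintype.card (Code n) = 4 ^ (2 ^ n)`).  Let `b₀` be in `S`
with `SS (FN b₀) ≠ 0`.  By GLB and SCI, `SS (FN b) ((ev b)⁻¹ X)` is for all `b` in the class of `b₀`
the same polynomial `V ≠ 0`, of degree `≤ 6 MT` (SPO, SCI), and `(X - 1) ^ P2 ∣ SS (FN b)` gives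
`(X - C (ev b)) ^ P2 ∣ V`.  The `ev b` are distinct (EVL), so `P2 #(class ∩ S) ≤ 6 MT`.  (`Ax m g h (ev b) =
(Am (tt b).1 (tt b).2).comp (C (ev b) X)` because `ev (-b) = (ev b)⁻¹`.) -/
def ClsStmt : Prop :=
  ∀ (ι : Type) [Fintype ι] [DecidableEq ι] (q : ι → ℕ) [∀ i, Fact (q i).Prime] (p m : ℕ)
    (g h : ℤ[X]) (L : Type) [Field L] (a : L) (α : ι → L), Sit q p m g h L a α →
    ∀ (T : List (ι × Bool)), (T.map Prod.fst).Nodup → ∀ (s : Pt q) (S : Finset (Pt q)) (P2 : ℕ),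
    (∀ b ∈ S, (∀ i, b i ≠ 0) ∧ (∀ i, (i, false) ∈ T → b i + s i ≠ 0) ∧
      (X - 1) ^ P2 ∣ SS (FN m g h α T b s).1 (FN m g h α T b s).2 ∧
      SS (FN m g h α T b s).1 (FN m g h α T b s).2 ≠ 0) →
    P2 * S.card ≤ 4 ^ (2 ^ T.length) * (T.map fun x => if x.2 then q x.1 else 1).prod *
      (6 * MT q m T)

/-- **GDC** (most `b` have good cubes; uses EVL, CJM).  *Proof.*  For fixed `s` each of the
`2 ^ |T|` vertices is an injective function of `b` (a composition of the maps `fr i` (a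
bijection of `Un q`, because `q i ≠ 0` modulo `q j`, `j ≠ i`) and `b ↦ sh i s b`), and maps the `b` in
question to elements of `Un q`.  So the number of `b` for which the vertex is bad is at most the
number `B` of bad elements of `Un q`, and `J B ≤ 2 φ(m)` by CJM.  (Induction on `T`: the set of
`b` with not `Vx P ((i, c) :: t) b s` is the union of two sets.) -/
def GdcStmt : Prop :=
  ∀ (ι : Type) [Fintype ι] [DecidableEq ι] (q : ι → ℕ) [∀ i, Fact (q i).Prime] (p m : ℕ)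
    (g h : ℤ[X]) (L : Type) [Field L] (a : L) (α : ι → L), Sit q p m g h L a α →
    ∀ (T : List (ι × Bool)), (T.map Prod.fst).Nodup → ∀ (s : Pt q) (S : Finset (Pt q)) (J : ℕ),
    (∀ b ∈ S, (∀ i, b i ≠ 0) ∧ (∀ i, (i, false) ∈ T → b i + s i ≠ 0) ∧ ¬ Gd m α J T b s) →
    J * S.card ≤ 2 ^ T.length * (2 * m.totient)

/-- **EXC** (for fixed `s` the logarithmic derivative vanishes for most `b`; uses BAF, ARI, SPO,
SCH, VAN, CLS, GDC).  *Proof.*  Let `S` be the set of the `b` with the three properties.  Split `S`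
into `S₁` (`b` not good for `J`) and `S₂`.  By GDC `J #S₁ ≤ 2 ^ |T| 2 φ(m)`.  For `b` in `S₂` and a
primitive root `t` modulo `p`, ARI, SPO and SCH (`P1 = p - 2 - 2 ^ (|T| + 1) J`) give
`(X - 1) ^ (P1 - 13) ∣ SS (FN b)`; and `SS (FN b) ≠ 0` because otherwise `w1 (FN b) = 0` by VAN,
that is, `Zr`.  Apply CLS. -/
def ExcStmt : Prop :=
  ∀ (ι : Type) [Fintype ι] [DecidableEq ι] (q : ι → ℕ) [∀ i, Fact (q i).Prime] (p m : ℕ)
    (g h : ℤ[X]) (K : Type) [Field K] [NumberField K] [IsCyclotomicExtension {p * m} ℚ K]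
    (A : ValuationSubring K) (z : A) (α : ι → ResidueField A), (p : A) ∈ maximalIdeal A →
    IsPrimitiveRoot z (p * m) → Sit q p m g h (ResidueField A) (residue A z) α →
    ∀ (T : List (ι × Bool)), (T.map Prod.fst).Nodup → (∀ i, i ∈ T.map Prod.fst) →
    ∀ (s : Pt q) (S : Finset (Pt q)) (J : ℕ),
    (∀ b ∈ S, (∀ i, b i ≠ 0) ∧ (∀ i, (i, false) ∈ T → b i + s i ≠ 0) ∧ ¬ Zr m g h α T (b, s)) →
    ∃ B1 B2 : ℕ, S.card ≤ B1 + B2 ∧ J * B1 ≤ 2 ^ T.length * (2 * m.totient) ∧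
      (p - 15 - 2 ^ (T.length + 1) * J) * B2 ≤ 4 ^ (2 ^ T.length) *
        (T.map fun x => if x.2 then q x.1 else 1).prod * (6 * MT q m T)

end Pool.Agent.CYE
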