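import Pool.Agent.CYE.Defs

/-! # Squad CYE (MP_734b60_nt, Theorem K): statements of the parts D, E (small and large primes).
Architect: helper25.  Paper: /team-store/PAPER_CYE25.md -/

set_option autoImplicit false

open Polynomial IsLocalRing

namespace Pool.Agent.CYE

open Pool.Agent.CYD

/-! ### Part D: the small primes -/

/-- **PCH** (chains; pure algebra, uses SCI).  `N j / P j`, `j ≤ J`, are rational functions such
that the logarithmic derivative of `q (N (j+1) / P (j+1))(X^q) - N j / P j` vanishes.  *Proof.*  The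
hypothesis means (`dX (expand q f) = C q (expand q (dX f))`)
`w1 (N j) (P j) expand q (P (j+1)) ^ 2 = q ^ 2 expand q (w1 (N (j+1)) (P (j+1))) (P j) ^ 2`.  By
induction on `J` (apply the induction hypothesis to the shifted sequence and `expand q`):
`w1 (N 0) (P 0) R = expand (q ^ J) (w1 (N J) (P J)) R'` with `R.coeff 0 ≠ 0`.  The constant term of
`w1 ..` is `0`, so `X ^ (q ^ J)` divides the right-hand side, hence `w1 (N 0) (P 0)`, whose degree is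
`≤ 2 M < 2 ^ J ≤ q ^ J`.  So it is `0`. -/
def PchStmt : Prop :=
  ∀ (L : Type) [Field L] (q J M : ℕ) (N P : ℕ → L[X]), 2 ≤ q → (∀ j, (P j).coeff 0 ≠ 0) →
    (N 0).natDegree ≤ M → (P 0).natDegree ≤ M → 2 * M < 2 ^ J →
    (∀ j < J, w1 (C (q : L) * expand L q (N (j + 1)) * P j - N j * expand L q (P (j + 1)))
      (expand L q (P (j + 1)) * P j) = 0) → w1 (N 0) (P 0) = 0

/-- **PEL** (one small prime; uses PCH).  *Proof.*  Let `φ w = (fr i w.1, fr i w.2)`, and let `B` be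
the set of the `w` in `Ω` with not `Zr ((i, true) :: t) w`.  If `w` is in `Ω` and none of
`w, φ w, …, φ^(J-1) w` is in `B` then `Zr t w`, by PCH applied to
`(N j, P j) = FN t (φ^j w)` (`FN ((i, true) :: t) w` is the pair in the hypothesis of PCH, by
definition).  So `{w ∈ Ω | ¬ Zr t w}` is contained in the union of the sets
`{w ∈ Ω | φ^j w ∈ B}`, `j < J`, and `φ^j` is injective on `Ω`. -/
def PelStmt : Prop :=
  ∀ (ι : Type) [Fintype ι] [DecidableEq ι] (q : ι → ℕ) [∀ i, Fact (q i).Prime] (m : ℕ)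
    (g h : ℤ[X]) (L : Type) [Field L] (α : ι → L) (i : ι) (t : List (ι × Bool)) (J M : ℕ)
    (Ω : Finset (Pt q × Pt q)),
    (∀ w ∈ Ω, ((fr i w.1, fr i w.2) : Pt q × Pt q) ∈ Ω) →
    (∀ w ∈ Ω, ∀ w' ∈ Ω, (fr i w.1 : Pt q) = fr i w'.1 → (fr i w.2 : Pt q) = fr i w'.2 → w = w') →
    (∀ w ∈ Ω, (FN m g h α t w.1 w.2).1.natDegree ≤ M ∧ (FN m g h α t w.1 w.2).2.natDegree ≤ M ∧
      (FN m g h α t w.1 w.2).2.coeff 0 ≠ 0) → 2 * M < 2 ^ J →
    ∃ B C : Finset (Pt q × Pt q),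
      (∀ w, w ∈ B ↔ w ∈ Ω ∧ ¬ Zr m g h α ((i, true) :: t) w) ∧
      (∀ w, w ∈ C ↔ w ∈ Ω ∧ ¬ Zr m g h α t w) ∧ C.card ≤ J * B.card

/-- **PEI** (all small primes; uses PEL, SPO).  *Proof.*  Induction on the list `sm`
(`ops (i :: sm) lg = (i, true) :: ops sm lg`), keeping the set of all admissible pairs for the
original list.  It is stable under `(fr i, fr i)` (`q i` is invertible modulo `q j`, `j ≠ i`;
`fr i s` vanishes where `s` does; `(fr i b) j + (fr i s) j = q i (b j + s j)` for `j ≠ i`, and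
`i ∉ lg`), and `fr i` is injective.  Degrees: SPO, and `MT` of a sublist is smaller. -/
def PeiStmt : Prop :=
  ∀ (ι : Type) [Fintype ι] [DecidableEq ι] (q : ι → ℕ) [∀ i, Fact (q i).Prime] (p m : ℕ)
    (g h : ℤ[X]) (L : Type) [Field L] (a : L) (α : ι → L), Sit q p m g h L a α →
    ∀ (sm lg : List ι), (sm ++ lg).Nodup → ∀ J : ℕ, 2 * MT q m (ops sm lg) < 2 ^ J →
    ∃ B C : Finset (Pt q × Pt q),
      (∀ w, w ∈ B ↔ Om sm lg w ∧ ¬ Zr m g h α (ops sm lg) w) ∧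
      (∀ w, w ∈ C ↔ Om sm lg w ∧ ¬ Zr m g h α (ops [] lg) w) ∧ C.card ≤ J ^ sm.length * B.card

/-! ### Part E: the large primes -/

/-- **COL** (coefficients; uses EVL, AFF).  *Proof.*  In `PowerSeries L` let
`R b = Ax (ev b) * (Bx (ev b))⁻¹`; its `k`-th coefficient is
`ev b ^ k * co L m (Am (tt b).1 (tt b).2) k` (`f.comp (C x X)` multiplies the `k`-th coefficient by
`x ^ k`; `Bx (ev b) (0) ≠ 0` by AFF).  Induction on `lg` (nodup):
`N P⁻¹ = ± ∑_{S ⊆ lg} (-1) ^ |S| R (shS S s b)`, `(N, P) = FN (ops [] lg) b s`,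
`P(0) ≠ 0`.  `w1 N P = 0` says that `X d/dX (N P⁻¹) = 0`, so `k` times the `k`-th coefficient is
`0`. -/
def ColStmt : Prop :=
  ∀ (ι : Type) [Fintype ι] [DecidableEq ι] (q : ι → ℕ) [∀ i, Fact (q i).Prime] (p m : ℕ)
    (g h : ℤ[X]) (L : Type) [Field L] (a : L) (α : ι → L), Sit q p m g h L a α →
    ∀ (lg : List ι), lg.Nodup → ∀ b s : Pt q, Zr m g h α (ops [] lg) (b, s) →
    ∀ k : ℕ, ¬ p ∣ k → ∑ S ∈ lg.toFinset.powerset, (-1) ^ S.card * (ev α (shS S s b) ^ k *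
      co L m (Am L m g h (tt g h α (shS S s b)).1 (tt g h α (shS S s b)).2) k) = 0

/-- **YEX** (expansion of `L = X Φ_m' / Φ_m`; no hypotheses).  `q1` is the smallest prime factor of
`m`, `ε = μ(m)`.  *Proof.*  In `ℤ⟦X⟧`: `Φ_m ∏_{μ(m/d) = -1} (1 - X^d) = ∏_{μ(m/d) = 1} (1 - X^d)`
(`m > 1`; from `∏_{d ∣ m} Φ_d = X ^ m - 1` by Möbius inversion, or by induction on the number of
prime factors of `m` from `Φ_(l m)(X) Φ_m(X) = Φ_m(X ^ l)` for the largest prime `l ∤ m`; start: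
`m = q1` prime, `Φ_m = (1 - X ^ q1) / (1 - X)`, `ε = -1`).  Modulo `X ^ (q1 + 1)` this gives
`Φ_m (1 - X) = 1 - X ^ q1` if `ε = -1`, and `Φ_m (1 - X ^ q1) = 1 - X` if `ε = 1`.  In both cases
`(1 - X) (X Φ_m') = -ε Φ_m (X - q1 X ^ q1 (1 - X))` modulo `X ^ (q1 + 1)`. -/
def YexStmt : Prop :=
  ∀ m : ℕ, 3 ≤ m → Odd m → Squarefree m → ∃ ε : ℤ, (ε = 1 ∨ ε = -1) ∧
    (X : ℤ[X]) ^ (m.minFac + 1) ∣ (1 - X) * (X * derivative (cyclotomic m ℤ)) +
      C ε * (cyclotomic m ℤ * (X - C (m.minFac : ℤ) * X ^ m.minFac * (1 - X)))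

/-- **COE** (the coefficients of `V` and `V'`; uses BAF, AFF, YEX).  *Proof* (paper, E1).
`V = Vm / Δ = X d/dX log (X Φ_m' / Φ_m)`, `V' = Wm / Δ = X d/dX log (Φ_m / Φ_m'*)` in
`PowerSeries L` (AFF), `Φ_m'* = φ Φ_m - X Φ_m'` (FCM is not needed: `CYE.rev`).  With
`X Φ_m' = -ε Φ_m Y`: `Y = X / (1 - X) - q1 X ^ q1` modulo `X ^ (q1 + 1)`, `c = ε / φ(m)`:
`V = X d/dX log Y`, `V' = - X d/dX log (1 + c Y)`.  `V_1 = 1`, `V'_1 = -c`.  If not both
`e - c e'` and `e' - c e` vanish take `k = 1`.  Otherwise `c = 1`, `e' = e` or `c = -1`, `e' = -e`.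
If `c = 1` then `V + V' = X d/dX log (Y / (1 + Y))`, `Y / (1 + Y) = X - q1 X ^ q1` modulo
`X ^ (q1 + 1)`, and the coefficient of `X ^ (q1 - 1)` is `- q1 (q1 - 1) ≠ 0` (`q1 < p`).  If
`c = -1` then `V - V' = X d/dX log (Y (1 - Y))`; the coefficient of `X ^ 2` is `-2` if `q1 > 3` and
`-8` if `q1 = 3`. -/
def CoeStmt : Prop :=
  ∀ (p m : ℕ) (g h : ℤ[X]), Fm p m g h → ∀ (L : Type) [Field L] [CharP L p] (e e' : ℤ),
    (e = 0 ∨ e = 1 ∨ e = -1) → (e' = 0 ∨ e' = 1 ∨ e' = -1) → (e ≠ 0 ∨ e' ≠ 0) →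
    ∃ k : ℕ, (k = 1 ∨ k = 2 ∨ k = m.minFac - 1) ∧
      ((e : L) * co L m (Vm L m) k + (e' : L) * co L m (Wm L m) k ≠ 0 ∨
        (e' : L) * co L m (Vm L m) k + (e : L) * co L m (Wm L m) k ≠ 0)

/-- **SWZ** (Schwartz-Zippel; no hypotheses).  *Proof.*  Induction on `lg`.  `lg = []`: the sum is
`w ∅ ≠ 0`.  `i :: lg`: the sum is `P₀ - α i ^ (k s_i) P₁`, `P₀ = ∑_{S ⊆ lg} ..` with the weights
`w S`, `P₁` with the weights `w (insert i S)`, both depend only on the coordinates in `lg` of `s`.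
`P₀ = 0` happens for at most `(∑_{j ∈ lg} 1 / (q j - 1)) ∏_{j ∈ lg} (q j - 1)` vectors of
coordinates in `lg` (induction, `w ∅ ≠ 0`), and if `P₀ ≠ 0` there is at most one value of
`s_i` with `α i ^ (k s_i) P₁ = P₀` (`α i` is a primitive `q i`-th root of unity, `q i ∤ k`).  Or use
`MvPolynomial.schwartz_zippel_sup_sum`.  `#(Sv q lg) = ∏_{i ∈ lg} (q i - 1)`. -/
def SwzStmt : Prop :=
  ∀ (ι : Type) [Fintype ι] [DecidableEq ι] (q : ι → ℕ) [∀ i, Fact (q i).Prime] (L : Type)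
    [Field L] (α : ι → L), (∀ i, IsPrimitiveRoot (α i) (q i)) →
    ∀ (lg : List ι), lg.Nodup → ∀ k : ℕ, (∀ i ∈ lg, ¬ q i ∣ k) → ∀ w : Finset ι → L, w ∅ ≠ 0 →
    ∀ S : Finset (Pt q), (∀ s ∈ S, s ∈ Sv q lg ∧
      ∑ T ∈ lg.toFinset.powerset, (-1) ^ T.card * (w T * ∏ i ∈ T, (α i ^ (s i).val) ^ k) = 0) →
    (S.card : ℝ) ≤ (lg.map fun i => (1 : ℝ) / (q i - 1)).sum * (Sv q lg).card

/-- `s` is generic. -/
def Gen {ι : Type} [Fintype ι] [DecidableEq ι] {q : ι → ℕ} (m : ℕ) {L : Type} [Field L]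
    (α : ι → L) (lg : List ι) (s : Pt q) : Prop :=
  ∀ k : ℕ, (k = 1 ∨ k = 2 ∨ k = m.minFac - 1) → ∀ e e' : Finset ι → ℤ,
    (∀ T, (e T = 0 ∨ e T = 1 ∨ e T = -1) ∧ (e' T = 0 ∨ e' T = 1 ∨ e' T = -1)) →
    ((e ∅ : L) * co L m (Vm L m) k + (e' ∅ : L) * co L m (Wm L m) k ≠ 0) →
    (∑ T ∈ lg.toFinset.powerset, (-1) ^ T.card *
      (((e T : L) * co L m (Vm L m) k + (e' T : L) * co L m (Wm L m) k) *
        ∏ i ∈ T, (α i ^ (s i).val) ^ k) ≠ 0) ∧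
    (∑ T ∈ lg.toFinset.powerset, (-1) ^ T.card *
      (((e T : L) * co L m (Vm L m) k + (e' T : L) * co L m (Wm L m) k) *
        ∏ i ∈ T, ((α i)⁻¹ ^ (s i).val) ^ k) ≠ 0)

/-- **GEN** (most `s` are generic; uses SWZ).  *Proof.*  Only the values `e T`, `e' T` for
`T ⊆ lg` matter: `9 ^ (2 ^ |lg|)` possibilities; three values of `k` (none of them is divisible by a
`q i`, `i ∈ lg`: `0 < k < q i`, because `q i` is odd (`q i ∣ m`, `m` odd), so `q i ≥ 3`, and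
`q i ≥ m.minFac`), two signs (`α⁻¹` also consists of primitive roots).  Apply SWZ to each. -/
def GenStmt : Prop :=
  ∀ (ι : Type) [Fintype ι] [DecidableEq ι] (q : ι → ℕ) [∀ i, Fact (q i).Prime] (p m : ℕ)
    (g h : ℤ[X]) (L : Type) [Field L] (a : L) (α : ι → L), Sit q p m g h L a α →
    ∀ (lg : List ι), lg.Nodup → ∀ S : Finset (Pt q),
    (∀ s ∈ S, s ∈ Sv q lg ∧ ¬ Gen m α lg s) →
    (S.card : ℝ) ≤ 6 * 9 ^ (2 ^ lg.length) * (lg.map fun i => (1 : ℝ) / (q i - 1)).sum *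
      (Sv q lg).card

/-- **DIF** (for a generic `s` the types agree; uses EVL, AFF, COL, COE).  *Proof* (paper, E3).
Suppose `tt b ≠ tt b'`.  Let `e T = [(tt (shS T s b)).1] - [(tt (shS T s b')).1]`, `e' T` the same
with `.2` (`[true] = 1`, `[false] = 0`); `(e ∅, e' ∅) ≠ (0, 0)`.  Take `k` from COE.  COL for
`(b, s)` divided by `ev b ^ k` (`ev (shS T s b) = ev b ∏_{i ∈ T} α i ^ (s i).val`) minus COL for
`(b', s)` divided by `ev b' ^ k` gives, by AFF (`Am` is affine in the types; `co` is additive),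
`∑ (-1) ^ |T| (e T V_k + e' T V'_k) ∏_{i ∈ T} (α i ^ s_i) ^ k = 0`: a contradiction to `Gen` if
`e ∅ V_k + e' ∅ V'_k ≠ 0`.  Otherwise use COL for `(-b, -s)` and `(-b', -s)`:
`shS T (-s) (-b) = -(shS T s b)`, `tt (-v)` is `tt v` with the components exchanged, and
`α i ^ (-s i).val = (α i)⁻¹ ^ (s i).val`; the second half of `Gen` with `e` and `e'` exchanged
gives a contradiction.  (`p ∤ k` because `0 < k < p`.) -/
def DifStmt : Prop :=
  ∀ (ι : Type) [Fintype ι] [DecidableEq ι] (q : ι → ℕ) [∀ i, Fact (q i).Prime] (p m : ℕ)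
    (g h : ℤ[X]) (L : Type) [Field L] (a : L) (α : ι → L), Sit q p m g h L a α →
    ∀ (lg : List ι), lg.Nodup → ∀ s b b' : Pt q, Gen m α lg s →
    Zr m g h α (ops [] lg) (b, s) → Zr m g h α (ops [] lg) (-b, -s) →
    Zr m g h α (ops [] lg) (b', s) → Zr m g h α (ops [] lg) (-b', -s) →
    tt g h α b = tt g h α b'

/-- **CNT** (the final counting; pure combinatorics, no hypotheses).  `U`, `Sg` finite sets (the
units, the shift vectors), `R b s` means that `(b, s)` is admissible, `Gs s` generic,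
`(b, s) ∈ Bd` bad.  *Proof* (paper, E4).  `A s = {b ∈ U | R b s, (b, s) ∉ Bd}`; `ty` is constant on
`A s` for `s` generic.  Let `S'` be the set of the generic `s` with `8 #{b | (b, s) ∈ Bd} ≤ #U`.
`64 #Bd ≤ #U #Sg` implies that at most `#Sg / 8` of the `s` have more bad `b`, so
`#S' ≥ 3/4 #Sg`.  For `s ∈ S'`: `#(A s) ≥ 3/4 #U - 1/8 #U = 5/8 #U`.  So `A s` and `A s'` intersect
for `s, s' ∈ S'`, and (`S'` is not empty) there is `x` with `ty b = x` for all `b ∈ A s`, `s ∈ S'`.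
If `ty b ≠ x` then for all `s ∈ S'` with `R b s` we have `(b, s) ∈ Bd`; there are at least
`3/4 #Sg - 1/4 #Sg = 1/2 #Sg` such `s`.  So `#{b | ty b ≠ x} #Sg / 2 ≤ #Bd`. -/
def CntStmt : Prop :=
  ∀ (β σ : Type) [DecidableEq β] [DecidableEq σ] (U : Finset β) (Sg : Finset σ) (R : β → σ → Prop)
    (Gs : σ → Prop) (Bd : Finset (β × σ)) (ty : β → Bool), U.Nonempty → Sg.Nonempty →
    (∀ s ∈ Sg, ∀ S : Finset β, (∀ b ∈ S, b ∈ U ∧ ¬ R b s) → 4 * S.card ≤ U.card) →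
    (∀ b ∈ U, ∀ S : Finset σ, (∀ s ∈ S, s ∈ Sg ∧ ¬ R b s) → 4 * S.card ≤ Sg.card) →
    (∀ S : Finset σ, (∀ s ∈ S, s ∈ Sg ∧ ¬ Gs s) → 8 * S.card ≤ Sg.card) →
    64 * Bd.card ≤ U.card * Sg.card →
    (∀ s ∈ Sg, Gs s → ∀ b ∈ U, ∀ b' ∈ U, R b s → R b' s → (b, s) ∉ Bd → (b', s) ∉ Bd →
      ty b = ty b') →
    ∃ x : Bool, ∀ S : Finset β, (∀ b ∈ S, b ∈ U ∧ ty b ≠ x) → S.card * Sg.card ≤ 2 * Bd.card

end Pool.Agent.CYE
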