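import Pool.Agent.CYE.StmtsB
import Pool.Agent.CYE.StmtsC
import Pool.Agent.CYE.StmtsD

/-! # Squad CYE (MP_734b60_nt, Theorem K): statements of part F (the end).
Architect: helper25.  Paper: /team-store/PAPER_CYE25.md.
`k` is the number of prime factors of `n = p m`, the small primes are those `< 2 ^ (5 * 2 ^ k)`. -/

set_option autoImplicit false

open Polynomial IsLocalRing

namespace Pool.Agent.CYE

open Pool.Agent.CYD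

/-- **UNC** (cardinalities; no hypotheses).  *Proof.*  `Un q` is a `Fintype.piFinset` of the sets of
nonzero elements, so `#(Un q) = ∏ (q i - 1) = φ(m)`; similarly `Sv q lg` is not empty.  For fixed
`s` and `i` the number of `b ∈ Un q` with `b i = - s i` is `#(Un q) / (q i - 1)`, for fixed `b` and
`i ∈ lg` the number of `s ∈ Sv q lg` with `s i = - b i` is `#(Sv q lg) / (q i - 1)`; take the
union over `i ∈ lg`. -/
def UncStmt : Prop :=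
  ∀ (ι : Type) [Fintype ι] [DecidableEq ι] (q : ι → ℕ) [∀ i, Fact (q i).Prime],
    Function.Injective q → (∀ i, 3 ≤ q i) → ∀ lg : List ι, lg.Nodup →
    (Un q).card = (∏ i, q i).totient ∧ (Un q).Nonempty ∧ (Sv q lg).Nonempty ∧
    (∀ s ∈ Sv q lg, ∀ S : Finset (Pt q), (∀ b ∈ S, b ∈ Un q ∧ ∃ i ∈ lg, b i + s i = 0) →
      (S.card : ℝ) ≤ (lg.map fun i => (1 : ℝ) / (q i - 1)).sum * (Un q).card) ∧
    (∀ b ∈ Un q, ∀ S : Finset (Pt q), (∀ s ∈ S, s ∈ Sv q lg ∧ ∃ i ∈ lg, b i + s i = 0) →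
      (S.card : ℝ) ≤ (lg.map fun i => (1 : ℝ) / (q i - 1)).sum * (Sv q lg).card)

/-- **DGB** (degrees; uses BAF, FCM, MIN, EVL, CJM).  *Proof.*  Let `s_b`, `s'_b` be the
multiplicities of `ev b` (`b ∈ Un q`) in `red g`, `red h`; `s_b + s'_b = p - 2` is odd (`CYE.sum`).
`red g` divides `Φ_m ^ (p - 2) Φ_m'` (FCM), `Φ_m = ∏ (X - ev b)` (the `ev b` are `φ(m)` distinct
primitive `m`-th roots of unity), so `red g = ∏ (X - ev b) ^ s_b G` with `G` prime to `Φ_m`,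
`G ∣ Φ_m'`, `deg G ≤ φ(m) - 1`.  If `ty = false` then `s_b < s'_b`, `s_b ≤ jm (ev b)` (MIN);
otherwise `s_b ≤ p`.  Sum up with `∑ jm (ev b) ≤ φ(m)` (CJM), and `deg (red g) = deg g` (FCM).
The second assertion: exchange `g` and `h`; `ty h g x = ! ty g h x` at the roots of unity
`x = ev b`. -/
def DgbStmt : Prop :=
  ∀ (ι : Type) [Fintype ι] [DecidableEq ι] (q : ι → ℕ) [∀ i, Fact (q i).Prime] (p m : ℕ)
    (g h : ℤ[X]) (L : Type) [Field L] (a : L) (α : ι → L), Sit q p m g h L a α →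
    g.natDegree ≤ p * ((Un q).filter fun b => ty g h (ev α b) ≠ false).card + 2 * m.totient ∧
    h.natDegree ≤ p * ((Un q).filter fun b => ty g h (ev α b) ≠ true).card + 2 * m.totient

/-- **FXN** (numerical form of EXC; uses BAF, EXC).  *Proof.*  `T = ops sm lg`, `|T| = k - 1`.  Take
`J = p / 2 ^ (k + 2)`.  Then `2 ^ k J ≤ p / 4`, `p - 15 - 2 ^ k J ≥ p / 2`, `J ≥ p / 2 ^ (k + 3)`, so
`p B1 ≤ 2 ^ (2 k + 3) φ(m)` and `p B2 ≤ 2 · 4 ^ (2 ^ (k - 1)) ∏_{sm} q i · 6 MT`,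
`MT = 3 φ(m) 2 ^ |lg| ∏_{sm} (1 + q i) ≤ 3 φ(m) 2 ^ (k - 1) 2 ^ (5 · 2 ^ k (k - 1))`, so
`p B2 ≤ 2 ^ (2 ^ k + 10 (k - 1) 2 ^ k + k - 1) 36 φ(m)`; the sum is `≤ 2 ^ (10 k 2 ^ k) φ(m)`. -/
def FxnStmt : Prop :=
  ∀ (ι : Type) [Fintype ι] [DecidableEq ι] (q : ι → ℕ) [∀ i, Fact (q i).Prime] (p m k : ℕ)
    (g h : ℤ[X]) (K : Type) [Field K] [NumberField K] [IsCyclotomicExtension {p * m} ℚ K]
    (A : ValuationSubring K) (z : A) (α : ι → ResidueField A), (p : A) ∈ maximalIdeal A →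
    IsPrimitiveRoot z (p * m) → Sit q p m g h (ResidueField A) (residue A z) α →
    ∀ (sm lg : List ι), (sm ++ lg).Nodup → (∀ i, i ∈ sm ++ lg) → k = (sm ++ lg).length + 1 →
    (∀ i ∈ sm, q i < 2 ^ (5 * 2 ^ k)) → 2 ^ (20 * k * 2 ^ k) ≤ p →
    ∀ (s : Pt q) (S : Finset (Pt q)),
    (∀ b ∈ S, Om sm lg (b, s) ∧ ¬ Zr m g h α (ops sm lg) (b, s)) →
    p * S.card ≤ 2 ^ (10 * k * 2 ^ k) * m.totient

/-- **TYC** (the types are almost constant; uses BAF, FXN, PEI, GEN, DIF, CNT, UNC).  *Proof.*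
Apply CNT with `U = Un q`, `Sg = Sv q lg`, `R b s = ∀ i ∈ lg, b i + s i ≠ 0`, `Gs s = Gen m α lg s`,
`ty b = ty g h (ev α b)`, and `Bd` the set of the `w = (b, s)`, `b ∈ U`, `s ∈ Sg`, `R b s`, such that
not `Zr (ops [] lg) w` or not `Zr (ops [] lg) (-w)` (`-w` is admissible, too).  By PEI and FXN
`#Bd ≤ 2 J ^ |sm| #{w | Om w, ¬ Zr (ops sm lg) w}`, `p #{..} ≤ #Sg 2 ^ (10 k 2 ^ k) φ(m)`, so
`64 p #Bd ≤ 128 J ^ k 2 ^ (10 k 2 ^ k) φ(m) #Sg ≤ p #U #Sg` (`#U = φ(m)` by UNC; `Om w` and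
`w.1 ∈ Un q` imply `w.2 ∈ Sv q lg`, because every index is in `sm ++ lg`).  For `i ∈ lg` the prime
`q i` is `≥ Q = 2 ^ (5 * 2 ^ k)`, and `∑_{lg} 1 / (q i - 1) ≤ (k - 1) / (Q - 1) ≤ 1 / 4`,
`6 · 9 ^ (2 ^ (k - 1)) (k - 1) / (Q - 1) ≤ 1 / 8`.  The last hypothesis of CNT is DIF. -/
def TycStmt : Prop :=
  ∀ (ι : Type) [Fintype ι] [DecidableEq ι] (q : ι → ℕ) [∀ i, Fact (q i).Prime] (p m k J : ℕ)
    (g h : ℤ[X]) (K : Type) [Field K] [NumberField K] [IsCyclotomicExtension {p * m} ℚ K]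
    (A : ValuationSubring K) (z : A) (α : ι → ResidueField A), (p : A) ∈ maximalIdeal A →
    IsPrimitiveRoot z (p * m) → Sit q p m g h (ResidueField A) (residue A z) α →
    ∀ (sm lg : List ι), (sm ++ lg).Nodup → (∀ i, i ∈ sm ++ lg) → k = (sm ++ lg).length + 1 →
    (∀ i ∈ sm, q i < 2 ^ (5 * 2 ^ k)) → (∀ i ∈ lg, 2 ^ (5 * 2 ^ k) ≤ q i) →
    2 ^ (20 * k * 2 ^ k) ≤ p → 1 ≤ J → 2 * MT q m (ops sm lg) < 2 ^ J →
    128 * J ^ k * 2 ^ (10 * k * 2 ^ k) ≤ p →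
    ∃ x : Bool, p * ((Un q).filter fun b => ty g h (ev α b) ≠ x).card ≤
      4 * J ^ k * 2 ^ (10 * k * 2 ^ k) * m.totient

/-- **NUM** (numerics; no hypotheses).  *Proof.*  `l = Nat.log 2 p`, `2 ^ l ≤ p < 2 ^ (l + 1)`,
`n ≤ p ^ k < 2 ^ (k (l + 1))`, so `30 k 2 ^ k ≤ l`.  `J = k (l + 1) + 5 k 2 ^ k ≤ 2 k l`.  (a) is
clear.  (b) `128 J ^ k 2 ^ (10 k 2 ^ k) ≤ 2 ^ (7 + 10 k 2 ^ k) (2 k l) ^ k ≤ 2 ^ l`:
`10 k 2 ^ k ≤ l / 3`, `(2 k l) ^ k ≤ 2 ^ (l / 2)` (with `l = x k`, `x ≥ 30 · 2 ^ k`: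
`2 k ^ 2 x ≤ x ^ 3 ≤ 2 ^ (x / 2)`), `7 ≤ l / 6`.  (c) `2 ^ ((p - 1) φ) ≤ n ^ (6 d) ≤
2 ^ (6 d k (l + 1))`, so `(p - 1) φ ≤ 6 k (l + 1) (p c + 2 φ) ≤
6 k (l + 1) (4 J ^ k 2 ^ (10 k 2 ^ k) + 2) φ`, which contradicts (in the same way)
`p - 1 > 6 k (l + 1) (4 J ^ k 2 ^ (10 k 2 ^ k) + 2)`.  (d) product of the bounds. -/
def NumStmt : Prop :=
  ∀ (p m n k J : ℕ), 2 ≤ k → n = p * m → 2 ^ (30 * k ^ 2 * 2 ^ k) ≤ n → n ≤ p ^ k →
    J = k * (Nat.log 2 p + 1) + 5 * k * 2 ^ k →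
    2 ^ (20 * k * 2 ^ k) ≤ p ∧ 1 ≤ J ∧ 128 * J ^ k * 2 ^ (10 * k * 2 ^ k) ≤ p ∧
    (∀ d c φ : ℕ, 1 ≤ φ → d ≤ p * c + 2 * φ →
      p * c ≤ 4 * J ^ k * 2 ^ (10 * k * 2 ^ k) * φ → 2 ^ ((p - 1) * φ) ≤ n ^ (6 * d) → False) ∧
    (∀ (M : ℕ), M ≤ 3 * m * 2 ^ (k - 1) * (2 ^ (5 * 2 ^ k)) ^ (k - 1) → 2 * M < 2 ^ J)

/-- **FIK** (there is no factorisation; uses DEG, BAF, SIE, EXA (`CYE.exa`), TYC, DGB, NUM).
*Proof.*  Let `k` be the number of prime factors of `n = p m`; `n ≤ p ^ k` because all prime factors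
are `≤ p`; `k ≥ 2`.  Suppose `2 ^ (30 k ^ 2 2 ^ k) ≤ n`.  `K = CyclotomicField n ℚ`, `A` a valuation
ring above `p` (`CYE.exa`), `z ∈ A` a primitive `n`-th root of unity (roots of unity lie in `A`),
`Sit` by SIE for the residue of `z`, which has order `m` (`CYE.spl`).  `sm`, `lg`: the lists of the
prime factors of `m` which are `<` resp. `≥ 2 ^ (5 * 2 ^ k)`.  `MT ≤ 3 m 2 ^ (k-1) (2 ^ (5 * 2 ^ k)) ^ (k-1)`.
TYC gives `x`; by DGB the degree `d` of `g` (if `x = false`) or `h` (if `x = true`) satisfies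
`d ≤ p c + 2 φ(m)`, and DEG for `(g, h)` resp. `(h, g)` gives a contradiction with NUM. -/
def FikStmt : Prop :=
  ∀ (p m : ℕ) (g h : ℤ[X]), Fm p m g h →
    p * m < 2 ^ (30 * (p * m).primeFactors.card ^ 2 * 2 ^ (p * m).primeFactors.card)

/-- **THK** (Theorem K; uses FIK).  *Proof.*  `n` odd: if `n` is prime use `CYE.prm`; otherwise
let `p` be the largest prime factor, `n = p m`, `m ≥ 3`; a factorisation `Fg n g h` gives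
`Fm p m g h`, which contradicts FIK; use `CYE.red'`.  `n = 2 n'`: `n' > 1` is odd with `k - 1`
prime factors, `n' ≥ 2 ^ (30 k ^ 2 2 ^ k - 1) ≥ 2 ^ (30 (k - 1) ^ 2 2 ^ (k - 1))`; use
`CYE.dbl`. -/
def ThkStmt : Prop :=
  ∀ n : ℕ, 3 ≤ n → Squarefree n → 2 ^ (30 * n.primeFactors.card ^ 2 * 2 ^ n.primeFactors.card) ≤ n →
    Irreducible (derivative (cyclotomic n ℚ))

end Pool.Agent.CYE
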