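import Pool.Agent.CYE.StmtsF

/-! # Squad CYE (MP_734b60_nt, Theorem K): the stronger form with a large prime factor.
Architect: helper25.  Paper: /team-store/PAPER_CYE25.md -/

set_option autoImplicit false

open Polynomial IsLocalRing

namespace Pool.Agent.CYE

open Pool.Agent.CYD

/-- **NU2** (numerics; no hypotheses).  *Proof.*  As NUM: `l = Nat.log 2 p ≥ 30 k 2 ^ k` is now the
hypothesis (`Nat.pow_le_iff_le_log` or `Nat.le_log_of_pow_le`), `n ≤ p ^ k < 2 ^ (k (l + 1))`; the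
lower bound for `n` was only used for this. -/
def Nu2Stmt : Prop :=
  ∀ (p m n k J : ℕ), 2 ≤ k → n = p * m → 2 ^ (30 * k * 2 ^ k) ≤ p → n ≤ p ^ k →
    J = k * (Nat.log 2 p + 1) + 5 * k * 2 ^ k →
    2 ^ (20 * k * 2 ^ k) ≤ p ∧ 1 ≤ J ∧ 128 * J ^ k * 2 ^ (10 * k * 2 ^ k) ≤ p ∧
    (∀ d c φ : ℕ, 1 ≤ φ → d ≤ p * c + 2 * φ →
      p * c ≤ 4 * J ^ k * 2 ^ (10 * k * 2 ^ k) * φ → 2 ^ ((p - 1) * φ) ≤ n ^ (6 * d) → False) ∧
    (∀ (M : ℕ), M ≤ 3 * m * 2 ^ (k - 1) * (2 ^ (5 * 2 ^ k)) ^ (k - 1) → 2 * M < 2 ^ J)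

/-- **FI2** (there is no factorisation; uses DEG, BAF, SIE, TYC, DGB, NU2).  *Proof.*  As FIK, with
NU2 instead of NUM. -/
def Fi2Stmt : Prop :=
  ∀ (p m : ℕ) (g h : ℤ[X]), Fm p m g h →
    p < 2 ^ (30 * (p * m).primeFactors.card * 2 ^ (p * m).primeFactors.card)

/-- **TH2** (Theorem K, strong form; uses FI2).  *Proof.*  As THK; `p'` the largest prime factor of
`n` is `≥ p`.  If `n` is even, `n = 2 n'`, then `p ≠ 2` (`2 ^ (30 ..) ≤ p`), `p ∣ n'`, and `n'` has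
`k - 1` prime factors. -/
def Th2Stmt : Prop :=
  ∀ n p : ℕ, Squarefree n → p.Prime → p ∣ n →
    2 ^ (30 * n.primeFactors.card * 2 ^ n.primeFactors.card) ≤ p →
    Irreducible (derivative (cyclotomic n ℚ))

end Pool.Agent.CYE
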